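import Pool.Agent.Helper12.NK.St

set_option autoImplicit false

namespace Pool.Agent.Helper96.NK

open Pool.Agent.Helper12.NK

open Pool.Agent.Helper51.AJ (IsMinor Planar Apex ExMinor Con Tch)

/-- one half of the hypotheses of `StSTC` -/
private theorem half {V : Type} [Finite V] (G : SimpleGraph V) (hKCA : StKCA) (hHCN : StHCN)
    (hSTB : StSTB) (hINS : StINS) (hTUT : StTUT) (hFDL : StFDL) (h : Hyp G) (hn : HN G) (hd : HD G)
    (hk : HK G) (u v : V) (huv : G.Adj u v) :
    (∀ F, IsFace G {u, v}ᶜ F → ¬ ({b | G.Adj u b} \ {v} : Set V) ⊆ F) ∧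
    (∀ w ∈ ({b | G.Adj u b} \ {v} : Set V),
      (∃ F, IsFace G {u, v}ᶜ F ∧ ({b | G.Adj v b} \ {u} : Set V) \ {w} ⊆ F) ∨
        ∀ t ∈ ({b | G.Adj v b} \ {u} : Set V), t ≠ w → Cof G {u, v}ᶜ w t) := by
  obtain ⟨h1, h2, h3, h4, h5⟩ := hHCN V G h
  have hne : u ≠ v := G.ne_of_adj huv
  have hK3 : Kc 3 G {u, v}ᶜ := h1 u v
  have hPl : Planar (rst G {u, v}ᶜ) := hSTB V G h hn hd hk u v huv
  have hmono := (hKCA V G Set.univ).2.2.2.2.2.1
  constructor
  · intro F hF hSF
    have hP := hINS V G {u, v}ᶜ F ({b | G.Adj u b} \ {v}) u hK3 hPl hF hSF (by simp)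
    apply hn v
    refine hmono _ _ ?_ hP
    intro a b hab
    obtain ⟨hab, ha, hb⟩ := hab
    simp only [Set.mem_compl_iff, Set.mem_singleton_iff] at ha hb
    by_cases hau : a = u
    · refine Or.inr (Or.inl ⟨hau, ⟨?_, ?_⟩, ?_⟩)
      · subst hau
        exact hab
      · simpa using hb
      · subst hau
        exact (G.ne_of_adj hab).symm
    · by_cases hbu : b = u
      · refine Or.inr (Or.inr ⟨hbu, ⟨?_, ?_⟩, hau⟩)
        · subst hbu
          exact hab.symm
        · simpa using ha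
      · refine Or.inl ⟨hab, ?_, ?_⟩
        · simp [hau, ha]
        · simp [hbu, hb]
  · intro w hw
    have hwu : G.Adj u w := hw.1
    have hwv : w ≠ v := fun e => hw.2 (by simp [e])
    have hwu' : w ≠ u := (G.ne_of_adj hwu).symm
    have hset : ({u, v}ᶜ : Set V) \ {w} = {u, v, w}ᶜ := by
      ext x
      simp only [Set.mem_sdiff, Set.mem_compl_iff, Set.mem_insert_iff, Set.mem_singleton_iff]
      tauto
    have hK3' : Kc 3 G (({u, v}ᶜ : Set V) \ {w}) := by
      rw [hset]
      exact h2 u v w huv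
    have hP1 : Planar (rst G {u, w}ᶜ) := hSTB V G h hn hd hk u w hwu
    have hP2 : Planar (add (rst G (({u, v}ᶜ : Set V) \ {w})) v (({b | G.Adj v b} \ {u} : Set V) \ {w})) := by
      refine hmono _ _ ?_ hP1
      intro a b hab
      rcases hab with hab | hab | hab
      · obtain ⟨hab, ha, hb⟩ := hab
        refine ⟨hab, ?_, ?_⟩
        · simp only [Set.mem_sdiff, Set.mem_compl_iff, Set.mem_insert_iff, Set.mem_singleton_iff] at ha ⊢
          tauto
        · simp only [Set.mem_sdiff, Set.mem_compl_iff, Set.mem_insert_iff, Set.mem_singleton_iff] at hb ⊢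
          tauto
      · obtain ⟨ha, hb, hbv⟩ := hab
        subst ha
        refine ⟨hb.1.1, ?_, ?_⟩
        · simp only [Set.mem_compl_iff, Set.mem_insert_iff, Set.mem_singleton_iff]
          exact fun e => e.elim (fun e => hne e.symm) (fun e => hwv e.symm)
        · have hb1 := hb.1.2
          have hb2 := hb.2
          simp only [Set.mem_singleton_iff] at hb1 hb2
          simp only [Set.mem_compl_iff, Set.mem_insert_iff, Set.mem_singleton_iff]
          tauto
      · obtain ⟨hb, ha, hav⟩ := hab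
        subst hb
        refine ⟨(show G.Adj b a from ha.1.1).symm, ?_, ?_⟩
        · have ha1 := ha.1.2
          have ha2 := ha.2
          simp only [Set.mem_singleton_iff] at ha1 ha2
          simp only [Set.mem_compl_iff, Set.mem_insert_iff, Set.mem_singleton_iff]
          tauto
        · simp only [Set.mem_compl_iff, Set.mem_insert_iff, Set.mem_singleton_iff]
          exact fun e => e.elim (fun e => hne e.symm) (fun e => hwv e.symm)
    have hsub : (({b | G.Adj v b} \ {u} : Set V) \ {w}) ⊆ ({u, v}ᶜ : Set V) \ {w} := by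
      intro x hx
      refine ⟨?_, hx.2⟩
      have hx1 : x ≠ u := fun e => hx.1.2 (by simp [e])
      have hx2 : x ≠ v := (G.ne_of_adj (show G.Adj v x from hx.1.1)).symm
      simp [hx1, hx2]
    have hcard : 3 ≤ (({b | G.Adj v b} \ {u} : Set V) \ {w}).ncard := by
      have e1 := Set.pred_ncard_le_ncard_sdiff_singleton {b | G.Adj v b} u
      have e2 := Set.pred_ncard_le_ncard_sdiff_singleton ({b | G.Adj v b} \ {u} : Set V) w
      have e3 := h4 v
      omega
    obtain ⟨m, c, hc, hN, -⟩ := hTUT V G _ _ v hK3' hsub hcard (by simp) hP2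
    rcases hFDL V G {u, v}ᶜ w hK3 hK3' hPl (Set.range c) ⟨m, c, hc, rfl⟩ with hF | hF
    · exact Or.inl ⟨_, hF, hN⟩
    · exact Or.inr fun t ht htw => hF t (hN ⟨ht, by simpa using htw⟩)

theorem hSTD (hKCA : StKCA) (hHCN : StHCN) (hSTB : StSTB) (hINS : StINS) (hTUT : StTUT)
    (hFDL : StFDL) (hSTC : StSTC) : StSTD := by
  intro V _ G h hn hd hk
  obtain ⟨h1, h2, h3, h4, h5⟩ := hHCN V G h
  have hV : Nonempty V := by
    by_contra hc
    rw [not_nonempty_iff] at hc
    have := h.1
    rw [Nat.card_of_isEmpty] at this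
    omega
  obtain ⟨u⟩ := hV
  have hex : ({b | G.Adj u b} : Set V).Nonempty := by
    apply Set.nonempty_of_ncard_ne_zero
    have := h4 u
    omega
  obtain ⟨v, huv⟩ := hex
  have huv : G.Adj u v := huv
  have hpc : ({v, u} : Set V) = {u, v} := Set.pair_comm v u
  obtain ⟨a1, a2⟩ := half G hKCA hHCN hSTB hINS hTUT hFDL h hn hd hk u v huv
  obtain ⟨b1, b2⟩ := half G hKCA hHCN hSTB hINS hTUT hFDL h hn hd hk v u huv.symm
  rw [hpc] at b1 b2
  have hSU : ({b | G.Adj u b} \ {v} : Set V) ⊆ {u, v}ᶜ := by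
    intro x hx
    have hx1 : x ≠ v := fun e => hx.2 (by simp [e])
    have hx2 : x ≠ u := (G.ne_of_adj (show G.Adj u x from hx.1)).symm
    simp [hx1, hx2]
  have hTU : ({b | G.Adj v b} \ {u} : Set V) ⊆ {u, v}ᶜ := by
    intro x hx
    have hx1 : x ≠ u := fun e => hx.2 (by simp [e])
    have hx2 : x ≠ v := (G.ne_of_adj (show G.Adj v x from hx.1)).symm
    simp [hx1, hx2]
  refine hSTC V G {u, v}ᶜ _ _ (h3 u v huv) (hSTB V G h hn hd hk u v huv) hSU hTU a1 b1 a2 b2 ?_
  have eS := Set.pred_ncard_le_ncard_sdiff_singleton {b | G.Adj u b} v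
  have eT := Set.pred_ncard_le_ncard_sdiff_singleton {b | G.Adj v b} u
  have dS := h4 u
  have dT := h4 v
  by_cases hu5 : ({b | G.Adj u b} : Set V).ncard = 5
  · right
    refine ⟨by omega, by omega, ?_, Or.inl ?_⟩
    · rw [Set.disjoint_left]
      intro x hx hx'
      exact h5 u hu5 v x huv hx.1 hx'.1
    · intro a ha b hb
      exact h5 u hu5 a b ha.1 hb.1
  · by_cases hv5 : ({b | G.Adj v b} : Set V).ncard = 5
    · right
      refine ⟨by omega, by omega, ?_, Or.inr ?_⟩
      · rw [Set.disjoint_left]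
        intro x hx hx'
        exact h5 v hv5 u x huv.symm hx'.1 hx.1
      · intro a ha b hb
        exact h5 v hv5 a b ha.1 hb.1
    · left
      constructor <;> omega

end Pool.Agent.Helper96.NK
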